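import Mathlib
import Pool.Agent.H6.OddD

namespace Pool.Agent.Results.MP_037fd6_co.OddFree

/-- The chromatic number: the least cardinal `κ` such that the vertices can be partitioned into
`κ` independent sets (properly coloured with `κ` colours). -/
noncomputable def chi {V : Type} (G : SimpleGraph V) : Cardinal.{0} :=
  sInf {κ | ∃ C : Type, Cardinal.mk C = κ ∧ Nonempty (G.Coloring C)}

/-- Under CH, for every `k` there is a graph of chromatic number `ℵ₁` that contains no
`K(ℵ₀,ℵ₀)` and no odd cycle `C_{2r+1}` with `1 ≤ r ≤ k`. -/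
theorem result (CH : Cardinal.continuum.{0} = Cardinal.aleph 1) (k : ℕ) :
    ∃ (V : Type) (G : SimpleGraph V), chi G = Cardinal.aleph 1 ∧
      ¬ (completeBipartiteGraph ℕ ℕ).IsContained G ∧
      ∀ r : ℕ, 1 ≤ r → r ≤ k → ¬ (SimpleGraph.cycleGraph (2 * r + 1)).IsContained G := by
  obtain ⟨V, G, hV, hchi, hK, hodd⟩ := H6.Odd.exists_graph CH k
  refine ⟨V, G, ?_, ?_, ?_⟩
  · apply le_antisymm
    · refine le_trans (csInf_le' ?_) hV
      refine ⟨V, rfl, ⟨SimpleGraph.Coloring.mk (fun v => v) ?_⟩⟩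
      intro v w h
      exact G.ne_of_adj h
    · refine le_csInf ⟨Cardinal.mk V, V, rfl, ⟨SimpleGraph.Coloring.mk (fun v => v)
        (fun {v w} h => G.ne_of_adj h)⟩⟩ ?_
      rintro κ ⟨C, rfl, ⟨col⟩⟩
      by_contra hcon
      push Not at hcon
      rw [← Cardinal.succ_aleph0, Order.lt_succ_iff, Cardinal.mk_le_aleph0_iff] at hcon
      obtain ⟨e, he⟩ := exists_injective_nat C
      obtain ⟨x, y, hxy, hf⟩ := hchi (fun v => e (col v))
      exact col.valid hxy (he hf)
  · rintro ⟨f⟩
    have hinj := f.injective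
    refine hK (Set.range (fun n : ℕ => f (Sum.inl n))) (Set.range (fun n : ℕ => f (Sum.inr n)))
      (Set.infinite_range_of_injective (fun m n h => Sum.inl_injective (hinj h)))
      (Set.infinite_range_of_injective (fun m n h => Sum.inr_injective (hinj h))) ?_
    rintro _ ⟨m, rfl⟩ _ ⟨n, rfl⟩
    exact f.toHom.map_adj (by simp [completeBipartiteGraph])
  · rintro r hr1 hrk ⟨f⟩
    obtain ⟨n, rfl⟩ : ∃ n, r = n + 1 := ⟨r - 1, by omega⟩
    have e : 2 * (n + 1) + 1 = 2 * n + 3 := by ring
    rw [e] at f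
    have h := hodd _ ((SimpleGraph.cycleGraph.cycle (2 * n)).map f.toHom) (by
      rw [SimpleGraph.Walk.length_map, SimpleGraph.cycleGraph.length_cycle]
      exact ⟨n + 1, by ring⟩)
    rw [SimpleGraph.Walk.length_map, SimpleGraph.cycleGraph.length_cycle] at h
    omega

end Pool.Agent.Results.MP_037fd6_co.OddFree
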